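import Pool.Agent.helper50.NPT.Spec3

/-!
# Row npt:HEN (MP_8f32d0_ag): coefficients of algebraic power series
-/

set_option autoImplicit false

namespace NPT

open scoped Classical
open AN

noncomputable section

/-- the subring of the power series -/
def HEN_PS (K : Type) [Field K] : Subring (LS K) where
  carrier := {f | f ∈ PS K}
  mul_mem' := fun hf hg => PS_mul hf hg
  one_mem' := one_mem_PS
  add_mem' := fun hf hg => (PS K).add_mem hf hg
  zero_mem' := (PS K).zero_mem
  neg_mem' := fun hf => (PS K).neg_mem hf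

/-- the subring of the series with coefficients in `R` -/
def HEN_CR {K : Type} [Field K] (R : Subring K) : Subring (LS K) where
  carrier := {f | ∀ m, cf f m ∈ R}
  mul_mem' := by
    intro f g hf hg n
    obtain ⟨a, ha⟩ := exists_lb f
    obtain ⟨b, hb⟩ := exists_lb g
    rw [cf_mul_finset f g n (a := a) (b := b) ha hb]
    exact R.sum_mem fun i _ => R.mul_mem (hf i) (hg _)
  one_mem' := by
    intro n
    rw [cf_one]
    split_ifs
    · exact R.one_mem
    · exact R.zero_mem
  add_mem' := by
    intro f g hf hg n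
    rw [cf_add]
    exact R.add_mem (hf n) (hg n)
  zero_mem' := by
    intro n
    rw [cf_zero]
    exact R.zero_mem
  neg_mem' := by
    intro f hf n
    rw [cf_neg]
    exact R.neg_mem (hf n)

theorem HEN_eval {A : Type} [CommRing A] (S : Subring A) (P : Polynomial A) (hP : ∀ i, P.coeff i ∈ S) (t : A) (ht : t ∈ S) : P.eval t ∈ S := by
  rw [Polynomial.eval_eq_sum_range]
  exact S.sum_mem fun i _ => S.mul_mem (hP i) (S.pow_mem ht i)

/-- Taylor expansion with a remainder in the subring -/
theorem HEN_tay {A : Type} [CommRing A] (S : Subring A) (P : Polynomial A) (hP : ∀ i, P.coeff i ∈ S) (y h : A) (hy : y ∈ S) (hh : h ∈ S) :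
    ∃ k ∈ S, P.eval (y + h) = P.eval y + P.derivative.eval y * h + k * h ^ 2 := by
  have h1 : P ∈ Polynomial.lifts S.subtype := by
    rw [Polynomial.lifts_iff_coeff_lifts]
    intro n
    exact ⟨⟨P.coeff n, hP n⟩, rfl⟩
  obtain ⟨Q, hQ⟩ := (Polynomial.mem_lifts P).1 h1
  obtain ⟨k, hk⟩ := Polynomial.binomExpansion Q ⟨y, hy⟩ ⟨h, hh⟩
  refine ⟨k, k.2, ?_⟩
  have h2 := congrArg S.subtype hk
  rw [map_add, map_add, map_mul, map_mul, map_pow, ← Polynomial.eval_map_apply, ← Polynomial.eval_map_apply, ← Polynomial.eval_map_apply, hQ, map_add,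
    ← Polynomial.derivative_map, hQ] at h2
  exact h2

theorem HEN : HEN_stmt := by
  intro K _ R P y e hR hPS hy hPy hd hd0 hdi hle
  have hyS : y ∈ HEN_PS K := hy
  have he : (0 : ℤ) ≤ (e : ℤ) := Int.natCast_nonneg e
  have key : ∀ n : ℕ, ∀ m : ℤ, m ≤ (e : ℤ) + n → cf y m ∈ R := by
    intro n
    induction n with
    | zero =>
      intro m hm
      exact hle m (by simpa using hm)
    | succ n ih =>
      intro m hm
      rcases lt_or_ge m ((e : ℤ) + (n + 1 : ℕ)) with hlt | hge
      · exact ih m (by push_cast at hlt; omega)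
      · obtain ⟨N, hN⟩ : ∃ N : ℤ, N = (e : ℤ) + (n + 1 : ℕ) := ⟨_, rfl⟩
        have hmN : m = N := by omega
        rw [hmN]
        have hNe : (e : ℤ) < N := by
          rw [hN]
          push_cast
          omega
        have ih' : ∀ m : ℤ, m < N → cf y m ∈ R := fun m hm => ih m (by rw [hN] at hm; push_cast at hm; omega)
        obtain ⟨t, ht⟩ : ∃ t : LS K, ∀ m, cf t m = if m < N then cf y m else 0 :=
          ⟨ofFun (fun m => if m < N then cf y m else 0) 0 (fun m hm => by
            rw [hy m hm, ite_self]), fun m => cf_ofFun _ _ _ _⟩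
        have htR : t ∈ HEN_CR R := by
          intro m
          rw [ht]
          split_ifs with h
          · exact ih' m h
          · exact R.zero_mem
        have hz : y - t ∈ GE K N := by
          intro m hm
          rw [cf_sub, ht, if_pos hm, sub_self]
        have hzN : cf (y - t) N = cf y N := by
          rw [cf_sub, ht, if_neg (lt_irrefl _), sub_zero]
        have hzS : -(y - t) ∈ HEN_PS K := (HEN_PS K).neg_mem (GE_mono (by omega : (0 : ℤ) ≤ N) hz)
        obtain ⟨k, hk, hT⟩ := HEN_tay (HEN_PS K) P hPS y (-(y - t)) hyS hzS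
        have h1 : y + -(y - t) = t := by ring
        rw [h1, hPy, zero_add, neg_sq] at hT
        have hPt : P.eval t ∈ HEN_CR R := HEN_eval (HEN_CR R) P (fun i m => hR i m) t htR
        have h2 : cf (P.eval t) ((e : ℤ) + N) ∈ R := hPt _
        have h3 : cf (k * (y - t) ^ 2) ((e : ℤ) + N) = 0 := by
          have h4 : (y - t) ^ 2 ∈ GE K (N + N) := by
            rw [pow_two]
            exact GE_mul hz hz
          have h5 : k * (y - t) ^ 2 ∈ GE K (0 + (N + N)) := GE_mul hk h4
          exact h5 _ (by omega)
        rw [hT, mul_neg, cf_add, h3, add_zero, cf_neg, cf_mul_lead hd hz, hzN] at h2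
        have h6 : cf y N = (cf (P.derivative.eval y) e)⁻¹ * -(-(cf (P.derivative.eval y) e * cf y N)) := by
          rw [neg_neg, inv_mul_cancel_left₀ hd0]
        rw [h6]
        exact R.mul_mem hdi (R.neg_mem h2)
  intro m
  rcases le_total m (e : ℤ) with h | h
  · exact hle m h
  · exact key (m - (e : ℤ)).toNat m (by rw [Int.toNat_of_nonneg (by omega)]; omega)

end

end NPT
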